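import Mathlib

namespace Pool.Agent.Results.MP_5a03e9_nt.NoSuchSet

open Filter Finset

open Classical in
/-- elements of `E` in `[1,N]` -/
noncomputable def EN (E : Set ℕ) (N : ℕ) : Finset ℕ := (Finset.Icc 1 N).filter (· ∈ E)

open Classical in
/-- elements `x` of `E ∩ [1,N]` with `x - k ∈ E` for some `k ∈ [n, n+j)` -/
noncomputable def bad (E : Set ℕ) (N n j : ℕ) : Finset ℕ :=
  (EN E N).filter (fun x => ∃ k, n ≤ k ∧ k < n + j ∧ k ≤ x ∧ x - k ∈ E)

lemma ncard_EN (E : Set ℕ) (N : ℕ) : (E ∩ Set.Icc 1 N).ncard = (EN E N).card := by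
  rw [← Set.ncard_coe_finset]
  congr 1
  ext x
  simp only [EN, Set.mem_inter_iff, Set.mem_Icc, Finset.coe_filter, Finset.mem_Icc,
    Set.mem_setOf_eq]
  tauto

lemma sparse_of_limsup (E : Set ℕ)
    (hd : Filter.limsup
      (fun p : ℕ × ℕ => ((E ∩ Set.Ico p.1 p.2).ncard : ℝ) / ((p.2 : ℝ) - (p.1 : ℝ)))
      (Filter.comap (fun p : ℕ × ℕ => (p.2 : ℤ) - (p.1 : ℤ)) Filter.atTop) = 0)
    (η : ℝ) (hη : 0 < η) :
    ∃ L0 : ℕ, ∀ M L : ℕ, L0 ≤ L → ((E ∩ Set.Ico M (M + L)).ncard : ℝ) ≤ η * L := by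
  have hb : IsBoundedUnder (· ≤ ·)
      (Filter.comap (fun p : ℕ × ℕ => (p.2 : ℤ) - (p.1 : ℤ)) Filter.atTop)
      (fun p : ℕ × ℕ => ((E ∩ Set.Ico p.1 p.2).ncard : ℝ) / ((p.2 : ℝ) - (p.1 : ℝ))) := by
    refine ⟨1, ?_⟩
    rw [Filter.eventually_map]
    refine Filter.Eventually.of_forall (fun p => ?_)
    have h1 : (E ∩ Set.Ico p.1 p.2).ncard ≤ p.2 - p.1 := by
      have := Set.ncard_le_ncard (Set.inter_subset_right (s := E) (t := Set.Ico p.1 p.2))
        (Set.finite_Ico _ _)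
      simpa using this
    rcases le_or_gt p.2 p.1 with h | h
    · have : (E ∩ Set.Ico p.1 p.2).ncard = 0 := by omega
      simp [this]
    · have h2 : (0 : ℝ) < (p.2 : ℝ) - p.1 := by
        have : (p.1 : ℝ) < p.2 := by exact_mod_cast h
        linarith
      refine (div_le_one h2).2 ?_
      have h3 : (((p.2 - p.1 : ℕ)) : ℝ) = (p.2 : ℝ) - p.1 := by
        rw [Nat.cast_sub h.le]
      rw [← h3]
      exact_mod_cast h1
  have h := Filter.eventually_lt_of_limsup_lt (hd ▸ hη) hb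
  rw [Filter.eventually_comap, Filter.eventually_atTop] at h
  obtain ⟨a, ha⟩ := h
  refine ⟨a.toNat + 1, fun M L hL => ?_⟩
  have h1 := ha (L : ℤ) (by omega) (M, M + L) (by simp)
  simp only [Nat.cast_add, add_sub_cancel_left] at h1
  have hLpos : (0 : ℝ) < L := by
    have : 0 < L := by omega
    exact_mod_cast this
  rw [div_lt_iff₀ hLpos] at h1
  exact h1.le

lemma exists_block (E : Set ℕ)
    (hs : ∀ η : ℝ, 0 < η →
      ∃ L0 : ℕ, ∀ M L : ℕ, L0 ≤ L → ((E ∩ Set.Ico M (M + L)).ncard : ℝ) ≤ η * L)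
    (j s : ℕ) (δ : ℝ) (hδ : 0 < δ) :
    ∃ W : ℕ, ∀ N : ℕ, ∃ w < W, ((bad E N (s + w * j) j).card : ℝ) ≤ δ * (EN E N).card := by
  classical
  rcases Nat.eq_zero_or_pos j with rfl | hj
  · refine ⟨1, fun N => ⟨0, by norm_num, ?_⟩⟩
    have : bad E N (s + 0 * 0) 0 = ∅ := by
      unfold bad
      apply Finset.filter_eq_empty_iff.2
      rintro x - ⟨k, h1, h2, -⟩
      omega
    rw [this]
    simp
    positivity
  have hjR : (0 : ℝ) < j := by exact_mod_cast hj
  obtain ⟨L0, hL0⟩ := hs (δ / j) (by positivity)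
  refine ⟨L0 + 1, fun N => ?_⟩
  set W := L0 + 1 with hW
  by_contra hcon
  push Not at hcon
  have hsum : ∑ w ∈ range W, δ * ((EN E N).card : ℝ) <
      ∑ w ∈ range W, ((bad E N (s + w * j) j).card : ℝ) := by
    apply Finset.sum_lt_sum_of_nonempty
    · simp [hW]
    · intro w hw
      exact hcon w (Finset.mem_range.1 hw)
  have hswap : ∑ w ∈ range W, (bad E N (s + w * j) j).card =
      ∑ x ∈ EN E N, ((range W).filter (fun w => ∃ k, s + w * j ≤ k ∧ k < s + w * j + j ∧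
        k ≤ x ∧ x - k ∈ E)).card := by
    unfold bad
    simp only [Finset.card_filter]
    rw [Finset.sum_comm]
  have hx : ∀ x ∈ EN E N, (((range W).filter (fun w => ∃ k, s + w * j ≤ k ∧ k < s + w * j + j ∧
        k ≤ x ∧ x - k ∈ E)).card : ℝ) ≤ δ * W := by
    intro x _
    set M := x + 1 - (s + W * j) with hM
    have h1 := hL0 M (W * j) (by nlinarith)
    have h2 : ((range W).filter (fun w => ∃ k, s + w * j ≤ k ∧ k < s + w * j + j ∧
        k ≤ x ∧ x - k ∈ E)).card ≤ (E ∩ Set.Ico M (M + W * j)).ncard := by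
      rw [← Set.ncard_coe_finset]
      have hfin : (E ∩ Set.Ico M (M + W * j)).Finite :=
        (Set.finite_Ico _ _).subset Set.inter_subset_right
      refine le_trans (Set.ncard_le_ncard (t := (fun y => (x - y - s) / j) ''
        (E ∩ Set.Ico M (M + W * j))) ?_ (hfin.image _)) (Set.ncard_image_le hfin)
      intro w hw
      simp only [Finset.coe_filter, Finset.mem_range, Set.mem_setOf_eq] at hw
      obtain ⟨hwW, k, hk1, hk2, hk3, hk4⟩ := hw
      have hwj : w * j + j ≤ W * j := by nlinarith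
      refine ⟨x - k, ⟨hk4, ?_, ?_⟩, ?_⟩
      · omega
      · omega
      · show (x - (x - k) - s) / j = w
        have : x - (x - k) - s = k - s := by omega
        rw [this]
        apply Nat.div_eq_of_lt_le
        · omega
        · rw [Nat.add_mul]; omega
    have h3 : δ / j * ((W * j : ℕ) : ℝ) = δ * W := by
      push_cast
      field_simp
    calc _ ≤ ((E ∩ Set.Ico M (M + W * j)).ncard : ℝ) := by exact_mod_cast h2
      _ ≤ _ := h1
      _ = _ := h3
  have h4 : (∑ w ∈ range W, ((bad E N (s + w * j) j).card : ℝ)) ≤ ∑ x ∈ EN E N, δ * (W : ℝ) := by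
    have := congrArg (fun n : ℕ => (n : ℝ)) hswap
    simp only [Nat.cast_sum] at this
    rw [this]
    exact Finset.sum_le_sum hx
  simp only [Finset.sum_const, Finset.card_range, nsmul_eq_mul] at hsum h4
  nlinarith

lemma exists_good (E : Set ℕ)
    (hs : ∀ η : ℝ, 0 < η →
      ∃ L0 : ℕ, ∀ M L : ℕ, L0 ≤ L → ((E ∩ Set.Ico M (M + L)).ncard : ℝ) ≤ η * L)
    (j s : ℕ) (δ : ℝ) (hδ : 0 < δ) :
    ∃ n, s ≤ n ∧ ∀ᶠ N in (hyperfilter ℕ : Filter ℕ),
      ((bad E N n j).card : ℝ) ≤ δ * (EN E N).card := by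
  obtain ⟨W, hW⟩ := exists_block E hs j s δ hδ
  have h1 : ∀ᶠ N in (hyperfilter ℕ : Filter ℕ), ∃ w ∈ Set.Iio W,
      ((bad E N (s + w * j) j).card : ℝ) ≤ δ * (EN E N).card :=
    Filter.Eventually.of_forall (fun N => by simpa using hW N)
  rw [Ultrafilter.eventually_exists_mem_iff (Set.finite_Iio W)] at h1
  obtain ⟨w, -, hw⟩ := h1
  exact ⟨s + w * j, by omega, hw⟩

theorem main (E : Set ℕ)
    (hs : ∀ η : ℝ, 0 < η →
      ∃ L0 : ℕ, ∀ M L : ℕ, L0 ≤ L → ((E ∩ Set.Ico M (M + L)).ncard : ℝ) ≤ η * L)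
    (ε : ℝ) (hε : 0 < ε) :
    ∃ A : Set ℕ, A ⊆ E ∧
      (∀ j : ℕ, ∃ N, j ≤ N ∧ (1 - ε) * ((EN E N).card : ℝ) ≤ (EN A N).card) ∧
      ∀ L : ℕ, ∃ m : ℕ, ∀ a ∈ A, ∀ a' ∈ A, ∀ k, m ≤ k → k < m + L → a ≠ a' + k := by
  classical
  have h1 := fun j s => exists_good E hs j s (ε / 2 ^ (j + 1)) (by positivity)
  choose nn hnn hG using h1
  have h2 : ∀ j s : ℕ, ∃ N, j ≤ N ∧ ∀ i ≤ j, ∀ t ≤ s,
      ((bad E N (nn i t) i).card : ℝ) ≤ ε / 2 ^ (i + 1) * (EN E N).card := by
    intro j s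
    have ha : ∀ᶠ N in (hyperfilter ℕ : Filter ℕ), j ≤ N :=
      Nat.hyperfilter_le_atTop (Filter.eventually_ge_atTop j)
    have hb : ∀ᶠ N in (hyperfilter ℕ : Filter ℕ), ∀ i ∈ Set.Iic j, ∀ t ∈ Set.Iic s,
        ((bad E N (nn i t) i).card : ℝ) ≤ ε / 2 ^ (i + 1) * (EN E N).card := by
      rw [Filter.eventually_all_finite (Set.finite_Iic j)]
      intro i _
      rw [Filter.eventually_all_finite (Set.finite_Iic s)]
      intro t _
      exact hG i t
    obtain ⟨N, hN1, hN2⟩ := (ha.and hb).exists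
    exact ⟨N, hN1, fun i hi t ht => hN2 i hi t ht⟩
  choose pick hp1 hp2 using h2
  let s : ℕ → ℕ := fun j => Nat.rec 0 (fun j sj => sj + pick j sj + 1) j
  have hsucc : ∀ j, s (j + 1) = s j + pick j (s j) + 1 := fun j => rfl
  have hmono : Monotone s := monotone_nat_of_le_succ (fun j => by rw [hsucc]; omega)
  refine ⟨{x | x ∈ E ∧ ∀ i k, nn i (s i) ≤ k → k < nn i (s i) + i → k ≤ x → x - k ∉ E},
    fun x hx => hx.1, ?_, ?_⟩
  · intro j
    refine ⟨pick j (s j), hp1 _ _, ?_⟩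
    set N := pick j (s j) with hN
    set A : Set ℕ := {x | x ∈ E ∧ ∀ i k, nn i (s i) ≤ k → k < nn i (s i) + i → k ≤ x →
      x - k ∉ E} with hA
    have hsub : EN E N ⊆ EN A N ∪ (range (j + 1)).biUnion (fun i => bad E N (nn i (s i)) i) := by
      intro x hx
      have hx' := hx
      simp only [EN, Finset.mem_filter, Finset.mem_Icc] at hx'
      by_cases hxA : x ∈ A
      · apply Finset.mem_union_left
        simp only [EN, Finset.mem_filter, Finset.mem_Icc]
        exact ⟨hx'.1, hxA⟩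
      · apply Finset.mem_union_right
        simp only [hA, Set.mem_setOf_eq, not_and, not_forall, not_not] at hxA
        obtain ⟨i, k, hk1, hk2, hk3, hk4⟩ := hxA hx'.2
        rw [Finset.mem_biUnion]
        refine ⟨i, ?_, ?_⟩
        · rw [Finset.mem_range]
          by_contra hij
          have h3 : s (j + 1) ≤ s i := hmono (show j + 1 ≤ i by omega)
          have h4 := hnn i (s i)
          rw [hsucc] at h3
          omega
        · unfold bad
          rw [Finset.mem_filter]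
          exact ⟨hx, k, hk1, hk2, hk3, hk4⟩
    have hc : ((EN E N).card : ℝ) ≤ (EN A N).card +
        ∑ i ∈ range (j + 1), ((bad E N (nn i (s i)) i).card : ℝ) := by
      have := (Finset.card_le_card hsub).trans ((Finset.card_union_le _ _).trans
        (Nat.add_le_add_left Finset.card_biUnion_le _))
      exact_mod_cast this
    have hd : ∑ i ∈ range (j + 1), ((bad E N (nn i (s i)) i).card : ℝ) ≤
        ∑ i ∈ range (j + 1), ε / 2 ^ (i + 1) * ((EN E N).card : ℝ) := by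
      apply Finset.sum_le_sum
      intro i hi
      have hi' : i ≤ j := by have := Finset.mem_range.1 hi; omega
      exact hp2 j (s j) i hi' (s i) (hmono hi')
    have hgeo : ∀ n : ℕ, ∑ i ∈ range n, ε / 2 ^ (i + 1) = ε - ε / 2 ^ n := by
      intro n
      induction n with
      | zero => simp
      | succ n ih => rw [Finset.sum_range_succ, ih]; field_simp; ring
    rw [← Finset.sum_mul, hgeo] at hd
    have h5 : 0 ≤ ε / 2 ^ (j + 1) * ((EN E N).card : ℝ) := by positivity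
    nlinarith
  · intro L
    refine ⟨nn L (s L), fun a ha a' ha' k hk1 hk2 hEq => ?_⟩
    apply ha.2 L k hk1 hk2 (by omega)
    have : a - k = a' := by omega
    rw [this]
    exact ha'.1

theorem result (E : Set ℕ) (hpos : 0 ∉ E) (hinf : E.Infinite)
    (hd : Filter.limsup
      (fun p : ℕ × ℕ => ((E ∩ Set.Ico p.1 p.2).ncard : ℝ) / ((p.2 : ℝ) - (p.1 : ℝ)))
      (Filter.comap (fun p : ℕ × ℕ => (p.2 : ℤ) - (p.1 : ℤ)) Filter.atTop) = 0)
    (c : ℝ) (hc : c < 1) :
    ∃ A : Set ℕ, A ⊆ E ∧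
      c < Filter.limsup
        (fun N : ℕ => ((A ∩ Set.Icc 1 N).ncard : ℝ) / ((E ∩ Set.Icc 1 N).ncard : ℝ))
        Filter.atTop ∧
      ¬ ∃ L : ℕ, 1 ≤ L ∧ ∀ m : ℤ, ∃ a ∈ A, ∃ a' ∈ A,
        m ≤ (a : ℤ) - (a' : ℤ) ∧ (a : ℤ) - (a' : ℤ) < m + (L : ℤ) := by
  obtain ⟨A, hAE, hdens, hthick⟩ := main E (sparse_of_limsup E hd) ((1 - c) / 2) (by linarith)
  refine ⟨A, hAE, ?_, ?_⟩
  · obtain ⟨e, he⟩ := hinf.nonempty
    have he1 : 1 ≤ e := by
      rcases Nat.eq_zero_or_pos e with rfl | h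
      · exact absurd he hpos
      · exact h
    have hb : IsBoundedUnder (· ≤ ·) Filter.atTop
        (fun N : ℕ => ((A ∩ Set.Icc 1 N).ncard : ℝ) / ((E ∩ Set.Icc 1 N).ncard : ℝ)) := by
      refine ⟨1, ?_⟩
      rw [Filter.eventually_map]
      refine Filter.Eventually.of_forall (fun N => ?_)
      apply div_le_one_of_le₀ _ (by positivity)
      have := Set.ncard_le_ncard (Set.inter_subset_inter_left (Set.Icc 1 N) hAE)
        ((Set.finite_Icc _ _).subset Set.inter_subset_right)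
      exact_mod_cast this
    have hf : ∃ᶠ N : ℕ in Filter.atTop, 1 - (1 - c) / 2 ≤
        ((A ∩ Set.Icc 1 N).ncard : ℝ) / ((E ∩ Set.Icc 1 N).ncard : ℝ) := by
      rw [Filter.frequently_atTop]
      intro j
      obtain ⟨N, hN1, hN2⟩ := hdens (j + e)
      refine ⟨N, by omega, ?_⟩
      rw [ncard_EN, ncard_EN]
      have hposN : 0 < (EN E N).card := by
        apply Finset.card_pos.2
        refine ⟨e, ?_⟩
        simp only [EN, Finset.mem_filter, Finset.mem_Icc]
        exact ⟨⟨he1, by omega⟩, he⟩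
      have hposR : (0 : ℝ) < (EN E N).card := by exact_mod_cast hposN
      rw [le_div_iff₀ hposR]
      exact hN2
    have := Filter.le_limsup_of_frequently_le hf hb
    linarith
  · rintro ⟨L, -, hL⟩
    obtain ⟨m, hm⟩ := hthick L
    obtain ⟨a, ha, a', ha', h1, h2⟩ := hL m
    exact hm a ha a' ha' (a - a') (by omega) (by omega) (by omega)

end Pool.Agent.Results.MP_5a03e9_nt.NoSuchSet
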